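import Pool.Agent.Helper781.CycHouse.House
import Pool.Agent.Helper781.Fusion.Cyclotomic

/-!
Question 1 of MP_f5ca18_al in full: the set of Frobenius-Perron dimensions of nonzero objects of
complex fusion categories has no accumulation point from above.

* `Pool.Agent.Helper781.Fusion.fpdim_cyclotomic` proves, from scratch, that these numbers lie in
  cyclotomic fields (theorem of Etingof, Nikshych and Ostrik, here by an elementary argument with
  transfer matrices and a cyclic rotation).
* `Pool.Agent.Helper781.CycHouse.house_gap` proves that the houses of cyclotomic integers do not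
  accumulate from above.
-/

set_option autoImplicit false

open Polynomial Finset

namespace Pool.Agent.Results.MP_f5ca18_al.NoAccumulation

open Pool.Agent.Helper781.CycHouse Pool.Agent.Helper781.Fusion

/-- A cyclotomic Perron-Frobenius eigenvalue of a matrix of natural numbers is the house of a
cyclotomic integer. -/
lemma isHouse_of_pf {n : ℕ} (A : Matrix (Fin n) (Fin n) ℕ) (d : ℝ) (hA : IsPFEigenvalue A d)
    (hd : ∃ (N : ℕ) (ζ : ℂ), 0 < N ∧ IsPrimitiveRoot ζ N ∧
      (d : ℂ) ∈ IntermediateField.adjoin ℚ {ζ}) : IsHouse d := by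
  obtain ⟨h1, h2⟩ := hA
  obtain ⟨N, ζ, hN, hζ, hmem⟩ := hd
  set P : ℤ[X] := (A.map (fun x : ℕ => (x : ℤ))).charpoly with hP
  have hmap : (A.map (fun x : ℕ => (x : ℂ))).charpoly = P.map (Int.castRingHom ℂ) := by
    rw [hP, ← Matrix.charpoly_map]
    congr 1
  have hroot : ∀ z : ℂ, z ∈ spectrum ℂ (A.map (fun x : ℕ => (x : ℂ))) ↔ aeval z P = 0 := by
    intro z
    rw [Matrix.mem_spectrum_iff_isRoot_charpoly, hmap, IsRoot, eval_map, aeval_def]
    rfl
  have hd0 : aeval (d : ℂ) P = 0 := (hroot _).mp h1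
  have hint : IsIntegral ℤ (d : ℂ) := ⟨P, Matrix.charpoly_monic _, hd0⟩
  obtain ⟨f, hf⟩ := int_of_field hN hζ d hint hmem
  have hnn : 0 ≤ d := (norm_nonneg _).trans (h2 _ h1)
  refine ⟨N, f, hN, ⟨ζ, hζ, ?_⟩, ?_⟩
  · rw [hf, Complex.norm_real, Real.norm_of_nonneg hnn]
  · intro z hz
    apply h2
    rw [hroot]
    have h3 : aeval ζ (P.comp f) = 0 := by rw [aeval_comp, hf, hd0]
    have h4 := aeval_conj hN _ hζ hz h3
    rwa [aeval_comp] at h4

universe v u

/-- **The set of Frobenius-Perron dimensions of nonzero objects of complex fusion categories has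
no accumulation point from above.** -/
theorem result (a : ℝ) : ∃ ε > 0, ∀ d ∈ FPdims.{v, u}, ¬ (a < d ∧ d < a + ε) := by
  obtain ⟨ε, hε, h⟩ := house_gap a
  refine ⟨ε, hε, ?_⟩
  rintro d ⟨C, _, _, _, _, _, _, _, hC, X, _, hX⟩
  have hcyc := fpdim_cyclotomic hC X d hX
  obtain ⟨n, S, _, hS⟩ := hX
  exact h d (isHouse_of_pf _ d hS hcyc)

end Pool.Agent.Results.MP_f5ca18_al.NoAccumulation
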